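import Pool.Agent.Helper28.LN.Sharp
import Pool.Agent.Helper88.PP.Defs2

set_option autoImplicit false

/-!
MP_120218_co, project PP (popular primes): optimality of the sum side.  For every `J, n` there are
`J` primes `P` and a set `A` with `log |A| ≍ n J log (J + 1)`, all of whose `P`-classes have at
least `n ^ J` elements and whose `k`-fold sum sets are as small as possible, for all `k`.
-/

namespace Pool.Agent.Helper4.PP

open Finset Pool.Agent.Helper15.GL Pool.Agent.Helper88.PP Pool.Agent.Helper34.TR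
open Pool.Agent.Helper28.LN

/-- the `P`-free part of an element of the extremal set -/
theorem pf_opt {r : ℕ} (p : Fin r → ℕ) (hp : ∀ i, (p i).Prime) (hinj : Function.Injective p)
    (m : ℕ) (hm0 : m ≠ 0) (hm : ∀ i, ¬ p i ∣ m) (e : Fin r → ℕ) :
    pf (univ.image p) (((m * ∏ i, p i ^ e i : ℕ) : ℤ)) = (m : ℤ) := by
  classical
  have h1 : ppart (univ.image p) (((m * ∏ i, p i ^ e i : ℕ) : ℤ)) = ∏ i, p i ^ e i := by
    unfold ppart
    rw [Finset.prod_image (fun i _ j _ h => hinj h)]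
    refine Finset.prod_congr rfl fun i _ => ?_
    rw [fact_eq (hp i), Int.natAbs_natCast, opt_fac p hp hinj m hm0 hm e i]
  have h2 : ((∏ i, p i ^ e i : ℕ) : ℤ) ≠ 0 := by
    rw [Ne, Int.natCast_eq_zero]
    exact Finset.prod_ne_zero_iff.2 fun i _ => pow_ne_zero _ (hp i).ne_zero
  unfold pf
  rw [h1, Nat.cast_mul]
  exact Int.mul_ediv_cancel _ h2

/-- the classes of the extremal set are large -/
theorem cls_optA {r : ℕ} (p : Fin r → ℕ) (hp : ∀ i, (p i).Prime) (hinj : Function.Injective p)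
    (D T n : ℕ) (hD : ∀ i, p i ∣ D) (a : ℤ) (ha : a ∈ optA p D T n) :
    n ^ r ≤ (Pool.Agent.Helper88.PP.cls (univ.image p) (optA p D T n) a).card := by
  classical
  have hA : optA p D T n = optA p D T n := rfl
  unfold optA at ha
  obtain ⟨⟨t, e⟩, hte, rfl⟩ := Finset.mem_image.1 ha
  rw [Finset.mem_product, Fintype.mem_piFinset] at hte
  have hnd : ∀ i : Fin r, ¬ p i ∣ 1 + D * t := by
    intro i hd
    have h2 : p i ∣ 1 := (Nat.dvd_add_left ((hD i).mul_right t)).1 hd
    exact (hp i).one_lt.ne' (Nat.dvd_one.1 h2)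
  have hcard : (Fintype.piFinset (fun _ : Fin r => Finset.range n)).card = n ^ r := by
    rw [Fintype.card_piFinset]
    simp
  rw [← hcard]
  refine Finset.card_le_card_of_injOn
    (fun f : Fin r → ℕ => (((1 + D * t) * ∏ i, p i ^ f i : ℕ) : ℤ)) ?_ ?_
  · intro f hf
    have hf' := Finset.mem_coe.1 hf
    rw [Fintype.mem_piFinset] at hf'
    refine Finset.mem_coe.2 ?_
    unfold Pool.Agent.Helper88.PP.cls
    rw [Finset.mem_filter]
    refine ⟨?_, ?_⟩
    · unfold optA
      refine Finset.mem_image.2 ⟨(t, f), ?_, rfl⟩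
      rw [Finset.mem_product, Fintype.mem_piFinset]
      exact ⟨hte.1, hf'⟩
    · have e1 := pf_opt p hp hinj (1 + D * t) (by omega) hnd f
      have e2 := pf_opt p hp hinj (1 + D * t) (by omega) hnd e
      exact e1.trans e2.symm
  · intro f _ f' _ h
    have h1 : (1 + D * t) * ∏ i, p i ^ f i = (1 + D * t) * ∏ i, p i ^ f' i := by
      have h' : (((1 + D * t) * ∏ i, p i ^ f i : ℕ) : ℤ) =
          (((1 + D * t) * ∏ i, p i ^ f' i : ℕ) : ℤ) := h
      exact Int.natCast_inj.1 h'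
    have h2 := Nat.eq_of_mul_eq_mul_left (by omega) h1
    have hnd1 : ∀ i : Fin r, ¬ p i ∣ 1 := by
      intro i hd
      exact (hp i).one_lt.ne' (Nat.dvd_one.1 hd)
    funext i
    have h3 := opt_fac p hp hinj 1 one_ne_zero hnd1 f i
    have h4 := opt_fac p hp hinj 1 one_ne_zero hnd1 f' i
    rw [← h3, ← h4, h2]

theorem zero_notMem_optA {r : ℕ} (p : Fin r → ℕ) (hp : ∀ i, (p i).Prime) (D T n : ℕ) :
    (0 : ℤ) ∉ optA p D T n := by
  classical
  intro h
  unfold optA at h
  obtain ⟨⟨t, e⟩, _, he⟩ := Finset.mem_image.1 h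
  have h1 : (1 + D * t) * ∏ i, p i ^ e i = 0 := by exact_mod_cast he
  have h2 : 0 < ∏ i, p i ^ e i := Finset.prod_pos fun i _ => pow_pos (hp i).pos _
  have h3 : 0 < (1 + D * t) * ∏ i, p i ^ e i := Nat.mul_pos (by omega) h2
  omega

/-- **Optimality of the sum side**, for all `J` and `n`. -/
theorem sharp_cls (η : ℝ) (hη : 0 < η) : ∃ c : ℝ, 0 < c ∧ ∀ J n : ℕ, 1 ≤ J → 1 ≤ n →
    ∃ (A : Finset ℤ) (P : Finset ℕ), A.Nonempty ∧ (0 : ℤ) ∉ A ∧ P.card = J ∧
      (∀ p ∈ P, p.Prime) ∧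
      (∀ a ∈ A, n ^ J ≤ (Pool.Agent.Helper88.PP.cls P A a).card) ∧
      (n : ℝ) * J * Real.log (J + 1) ≤ Real.log A.card ∧
      c * Real.log A.card ≤ (n : ℝ) * J * Real.log (J + 1) ∧
      ∀ k : ℕ, ((sumSet k A).card : ℝ) ≤ ((k : ℝ) + 1) * (A.card : ℝ) ^ (1 + η) := by
  classical
  refine ⟨1 / (16 / η + 4), by positivity, fun r n hr hn => ?_⟩
  obtain ⟨p, hpd⟩ : ∃ p : Fin r → ℕ, p = fun i : Fin r => Nat.nth Nat.Prime i := ⟨_, rfl⟩
  have hp : ∀ i, (p i).Prime := by
    intro i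
    rw [hpd]
    exact Nat.prime_nth_prime _
  have hinj : Function.Injective p := by
    intro i j h
    rw [hpd] at h
    exact Fin.ext (Nat.nth_injective Nat.infinite_setOfPred_prime h)
  have hple : ∀ i, p i ≤ 4 * (r + 1) ^ 2 := by
    intro i
    rw [hpd]
    exact nth_prime_le r i i.2
  obtain ⟨D, hD⟩ : ∃ D : ℕ, D = ∏ i, p i := ⟨_, rfl⟩
  have hDi : ∀ i, p i ∣ D := by
    intro i
    rw [hD]
    exact Finset.dvd_prod_of_mem _ (Finset.mem_univ i)
  have hD0 : 0 < D := by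
    rw [hD]
    exact Finset.prod_pos fun i _ => (hp i).pos
  have hDR : (1 : ℝ) ≤ D := by exact_mod_cast hD0
  have hr1 : (1 : ℝ) ≤ r := by exact_mod_cast hr
  have hn1 : (1 : ℝ) ≤ n := by exact_mod_cast hn
  have hlog2 : (1 / 2 : ℝ) ≤ Real.log 2 := by
    have := Real.log_two_gt_d9
    linarith
  have hlr : Real.log 2 ≤ Real.log (r + 1) :=
    Real.log_le_log (by norm_num) (by linarith)
  obtain ⟨Z, hZ⟩ : ∃ Z : ℝ, Z = (n : ℝ) * r * Real.log (r + 1) := ⟨_, rfl⟩
  have hnr : 1 ≤ (n : ℝ) * r := by nlinarith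
  have hZ1 : Real.log 2 ≤ Z := by
    rw [hZ]
    nlinarith
  have hZ0 : 0 < Z := by linarith
  have hZnr : (n : ℝ) * r ≤ 2 * Z := by
    rw [hZ]
    have h1 := mul_le_mul_of_nonneg_left (hlog2.trans hlr) (show 0 ≤ (n : ℝ) * r by linarith)
    linarith
  have hlD : Real.log D ≤ 4 * (r * Real.log (r + 1)) := by
    rw [hD, Nat.cast_prod, Real.log_prod (fun i _ => by
      have := (hp i).pos
      positivity)]
    have h1 : ∀ i ∈ (univ : Finset (Fin r)), Real.log (p i) ≤ 4 * Real.log (r + 1) := by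
      intro i _
      have h2 : (p i : ℝ) ≤ 4 * (r + 1) ^ 2 := by exact_mod_cast hple i
      have h3 : (0 : ℝ) < p i := by exact_mod_cast (hp i).pos
      have h4 := Real.log_le_log h3 h2
      rw [Real.log_mul (by norm_num) (by positivity), Real.log_pow] at h4
      have h5 : Real.log 4 = 2 * Real.log 2 := by
        rw [show (4 : ℝ) = 2 ^ 2 by norm_num, Real.log_pow]
        norm_num
      rw [h5] at h4
      push_cast at h4
      linarith
    refine (Finset.sum_le_sum h1).trans ?_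
    rw [Finset.sum_const, Finset.card_univ, Fintype.card_fin, nsmul_eq_mul]
    exact le_of_eq (by ring)
  have hlD0 : 0 ≤ Real.log D := Real.log_nonneg hDR
  have hlD2 : ((n : ℝ) + 1) * Real.log D ≤ 8 * Z := by
    have h1 := mul_le_mul_of_nonneg_left hlD (show 0 ≤ (n : ℝ) + 1 by linarith)
    have h2 : ((n : ℝ) + 1) * (4 * (r * Real.log (r + 1))) ≤
        (2 * n) * (4 * (r * Real.log (r + 1))) := by
      refine mul_le_mul_of_nonneg_right (by linarith) ?_
      have : 0 ≤ Real.log ((r : ℝ) + 1) := by linarith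
      positivity
    rw [hZ]
    linarith
  obtain ⟨W, hW⟩ : ∃ W : ℝ, W = (8 / η + 1) * Z := ⟨_, rfl⟩
  have hWZ : Z ≤ W := by
    rw [hW]
    have : 0 < 8 / η * Z := by positivity
    linarith
  have hηW : 8 * Z ≤ η * W := by
    rw [hW]
    have h1 : η * ((8 / η + 1) * Z) = 8 * Z + η * Z := by
      field_simp
    rw [h1]
    have : 0 < η * Z := by positivity
    linarith
  obtain ⟨T, hT⟩ : ∃ T : ℕ, T = ⌈Real.exp W⌉₊ := ⟨_, rfl⟩
  have hTe : Real.exp W ≤ T := by rw [hT]; exact Nat.le_ceil _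
  have hT0 : (0 : ℝ) < T := lt_of_lt_of_le (Real.exp_pos W) hTe
  have hTlog : W ≤ Real.log T := by
    rw [Real.le_log_iff_exp_le hT0]
    exact hTe
  have hT1 : (1 : ℝ) ≤ T := by
    have : 1 ≤ T := by
      have : 0 < T := by exact_mod_cast hT0
      omega
    exact_mod_cast this
  have hTup : Real.log T ≤ 2 * W := by
    have h1 : (T : ℝ) ≤ 2 * Real.exp W := by
      have h2 : (T : ℝ) < Real.exp W + 1 := by
        rw [hT]
        exact Nat.ceil_lt_add_one (Real.exp_pos W).le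
      have h3 : 1 ≤ Real.exp W := Real.one_le_exp (by linarith)
      linarith
    have h2 := Real.log_le_log hT0 h1
    rw [Real.log_mul (by norm_num) (Real.exp_pos W).ne', Real.log_exp] at h2
    linarith
  have hA : (optA p D T n).card = T * n ^ r := card_optA p hp hinj D T n hDi hD0
  have hAR : ((optA p D T n).card : ℝ) = T * (n : ℝ) ^ r := by rw [hA]; push_cast; ring
  have hnrp : (1 : ℝ) ≤ (n : ℝ) ^ r := one_le_pow₀ hn1
  have hAT : (T : ℝ) ≤ (optA p D T n).card := by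
    rw [hAR]
    nlinarith
  have hA1 : (1 : ℝ) ≤ (optA p D T n).card := hT1.trans hAT
  have hlogA : Real.log (optA p D T n).card ≤ (16 / η + 4) * Z := by
    rw [hAR, Real.log_mul (by linarith) (by positivity), Real.log_pow]
    have h1 : Real.log n ≤ n - 1 := Real.log_le_sub_one_of_pos (by linarith)
    have h2 : (r : ℝ) * Real.log n ≤ r * n :=
      mul_le_mul_of_nonneg_left (by linarith) (by linarith)
    have h3 : 2 * W = (16 / η + 2) * Z := by rw [hW]; ring
    linarith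
  refine ⟨optA p D T n, univ.image p, ?_, zero_notMem_optA p hp D T n, ?_, ?_, ?_, ?_, ?_, ?_⟩
  · rw [← Finset.card_pos]
    have : (0 : ℝ) < (optA p D T n).card := by linarith
    exact_mod_cast this
  · rw [Finset.card_image_of_injective _ hinj, Finset.card_univ, Fintype.card_fin]
  · intro q hq
    obtain ⟨i, _, rfl⟩ := Finset.mem_image.1 hq
    exact hp i
  · intro a ha
    exact cls_optA p hp hinj D T n hDi a ha
  · rw [← hZ]
    exact hWZ.trans (hTlog.trans (Real.log_le_log hT0 hAT))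
  · rw [← hZ, one_div, inv_mul_le_iff₀ (by positivity)]
    exact hlogA
  · intro k
    have h1 := sum_optA p hp D T n hD hD0 k
    have h2 : (((Fintype.piFinset (fun _ : Fin k => optA p D T n)).image
        (fun f : Fin k → ℤ => ∑ i, f i)).card : ℝ) ≤ k * (T * (D : ℝ) ^ (n + 1)) + 1 := by
      exact_mod_cast h1
    unfold sumSet
    refine h2.trans ?_
    have h3 : (T : ℝ) * (D : ℝ) ^ (n + 1) ≤ ((optA p D T n).card : ℝ) ^ (1 + η) := by
      have h4 : (D : ℝ) ^ (n + 1) ≤ (T : ℝ) ^ η := by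
        rw [← Real.log_le_log_iff (by positivity) (by positivity), Real.log_pow,
          Real.log_rpow hT0]
        push_cast
        have h5 := mul_le_mul_of_nonneg_left hTlog hη.le
        linarith
      calc (T : ℝ) * (D : ℝ) ^ (n + 1) ≤ T * (T : ℝ) ^ η :=
            mul_le_mul_of_nonneg_left h4 (by linarith)
        _ = (T : ℝ) ^ (1 + η) := by rw [Real.rpow_add hT0, Real.rpow_one]
        _ ≤ _ := Real.rpow_le_rpow hT0.le hAT (by linarith)
    have hk : (0 : ℝ) ≤ k := Nat.cast_nonneg k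
    have h5 : (1 : ℝ) ≤ ((optA p D T n).card : ℝ) ^ (1 + η) :=
      Real.one_le_rpow hA1 (by linarith)
    calc (k : ℝ) * (T * (D : ℝ) ^ (n + 1)) + 1 ≤
          k * ((optA p D T n).card : ℝ) ^ (1 + η) + ((optA p D T n).card : ℝ) ^ (1 + η) :=
            add_le_add (mul_le_mul_of_nonneg_left h3 hk) h5
      _ = _ := by ring

/-- the same with the class size in terms of `log |A|` -/
theorem sharp_cls_log (η : ℝ) (hη : 0 < η) : ∃ c : ℝ, 0 < c ∧ ∀ J n : ℕ, 1 ≤ J → 1 ≤ n →
    ∃ (A : Finset ℤ) (P : Finset ℕ), A.Nonempty ∧ (0 : ℤ) ∉ A ∧ P.card = J ∧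
      (∀ p ∈ P, p.Prime) ∧ (n : ℝ) ≤ Real.log A.card ∧
      (∀ a ∈ A, (c * Real.log A.card / (J * Real.log (J + 1))) ^ J ≤
        ((Pool.Agent.Helper88.PP.cls P A a).card : ℝ)) ∧
      ∀ k : ℕ, ((sumSet k A).card : ℝ) ≤ ((k : ℝ) + 1) * (A.card : ℝ) ^ (1 + η) := by
  obtain ⟨c, hc, h⟩ := sharp_cls η hη
  refine ⟨c, hc, fun J n hJ hn => ?_⟩
  obtain ⟨A, P, h1, h2, h3, h4, h5, h6, h7, h8⟩ := h J (2 * n) hJ (by omega)
  have hJ1 : (1 : ℝ) ≤ J := by exact_mod_cast hJ
  have hn1 : (1 : ℝ) ≤ n := by exact_mod_cast hn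
  have hlJ : (1 / 2 : ℝ) ≤ Real.log (J + 1) := by
    have e1 := Real.log_two_gt_d9
    have e2 : Real.log 2 ≤ Real.log (J + 1) := Real.log_le_log (by norm_num) (by linarith)
    linarith
  refine ⟨A, P, h1, h2, h3, h4, ?_, ?_, h8⟩
  · refine le_trans ?_ h6
    push_cast
    have e1 : (n : ℝ) * 1 ≤ n * J := mul_le_mul_of_nonneg_left hJ1 (by linarith)
    have e2 : 2 * (n : ℝ) * J * (1 / 2) ≤ 2 * n * J * Real.log (J + 1) :=
      mul_le_mul_of_nonneg_left hlJ (by nlinarith)
    linarith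
  · intro a ha
    have hA1 : (1 : ℝ) ≤ A.card := by
      have : 0 < A.card := h1.card_pos
      exact_mod_cast this
    have e0 : 0 < (J : ℝ) * Real.log (J + 1) := by
      have : (0 : ℝ) < Real.log (J + 1) := by linarith
      have : (0 : ℝ) < J := by linarith
      positivity
    have e1 : c * Real.log A.card / (J * Real.log (J + 1)) ≤ ((2 * n : ℕ) : ℝ) := by
      rw [div_le_iff₀ e0]
      calc c * Real.log A.card ≤ ((2 * n : ℕ) : ℝ) * J * Real.log (J + 1) := h7
        _ = _ := by ring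
    have e2 : 0 ≤ c * Real.log A.card / (J * Real.log (J + 1)) :=
      div_nonneg (mul_nonneg hc.le (Real.log_nonneg hA1)) e0.le
    have e3 := pow_le_pow_left₀ e2 e1 J
    have e4 : (((2 * n) ^ J : ℕ) : ℝ) ≤ ((Pool.Agent.Helper88.PP.cls P A a).card : ℝ) := by exact_mod_cast h5 a ha
    rw [Nat.cast_pow] at e4
    exact e3.trans e4

end Pool.Agent.Helper4.PP
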